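import Mathlib

namespace Pool.Agent.Results.MP_7d76f2_co.Counter

open Finset

/-- vertices that become filled, starting from `S` -/
inductive Filled {n : ℕ} (G : SimpleGraph (Fin n)) (S : Finset (Fin n)) : Fin n → Prop
  | base (v) : v ∈ S → Filled G S v
  | force (u w) : Filled G S u → G.Adj u w → (∀ x, G.Adj u x → x ≠ w → Filled G S x) →
      Filled G S w

noncomputable def Z {n : ℕ} (G : SimpleGraph (Fin n)) : ℕ :=
  sInf {k | ∃ S : Finset (Fin n), S.card = k ∧ ∀ v, Filled G S v}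

def Fort {n : ℕ} (G : SimpleGraph (Fin n)) (F : Finset (Fin n)) : Prop :=
  F.Nonempty ∧ ∀ v, v ∉ F → (G.neighborSet v ∩ F).ncard ≠ 1

noncomputable def ft {n : ℕ} (G : SimpleGraph (Fin n)) : ℕ :=
  sSup {k | ∃ f : Fin k → Finset (Fin n), (∀ i, Fort G (f i)) ∧
    ∀ i j, i ≠ j → Disjoint (f i) (f j)}

noncomputable def Zstar {n : ℕ} (G : SimpleGraph (Fin n)) : ℝ :=
  sInf {t | ∃ x : Fin n → ℝ, (∀ v, 0 ≤ x v) ∧
    (∀ F, Minimal (Fort G) F → 1 ≤ ∑ v ∈ F, x v) ∧ ∑ v, x v = t}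

def nb (v : Fin 11) : List (Fin 11) :=
  match v.val with
  | 0 => [2] | 1 => [2, 3] | 2 => [0, 1, 5, 6] | 3 => [1, 4] | 4 => [3, 5] | 5 => [2, 4, 6, 7]
  | 6 => [2, 5, 9, 10] | 7 => [5, 8] | 8 => [7, 9] | 9 => [6, 8] | _ => [6]

def H : SimpleGraph (Fin 11) where
  Adj a b := b ∈ nb a
  symm := ⟨by decide⟩
  loopless := ⟨by decide⟩

instance : DecidableRel H.Adj := fun a b => by unfold H; infer_instance

def fort (F : Finset (Fin 11)) : Prop :=
  F.Nonempty ∧ ∀ v, v ∉ F → ∀ w ∈ F, H.Adj v w → ∃ x ∈ F, x ≠ w ∧ H.Adj v x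

instance (F : Finset (Fin 11)) : Decidable (fort F) := by unfold fort; infer_instance

lemma fort_iff (F : Finset (Fin 11)) : Fort H F ↔ fort F := by
  refine and_congr_right (fun _ => forall_congr' (fun v => imp_congr_right (fun _ => ?_)))
  rw [Ne, Set.ncard_eq_one]
  constructor
  · intro h w hw ha
    by_contra hc
    push Not at hc
    refine h ⟨w, Set.eq_singleton_iff_unique_mem.2 ⟨⟨ha, hw⟩, fun x hx => ?_⟩⟩
    by_contra hne
    exact hc x hx.2 hne hx.1
  · rintro h ⟨w, hw⟩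
    have h1 : w ∈ H.neighborSet v ∩ F := by rw [hw]; rfl
    obtain ⟨x, hx, h2, h3⟩ := h w h1.2 h1.1
    have h4 : x ∈ H.neighborSet v ∩ F := ⟨h3, hx⟩
    rw [hw] at h4
    exact h2 h4

lemma meets (S F : Finset (Fin 11)) (hS : ∀ v, Filled H S v) (hF : fort F) : ∃ v ∈ F, v ∈ S := by
  by_contra hc
  push Not at hc
  have : ∀ v, Filled H S v → v ∉ F := by
    intro v hv
    induction hv with
    | base v h => exact fun h1 => hc v h1 h
    | force u w _ ha _ ih1 ih2 =>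
      intro hw
      obtain ⟨x, hx, h2, h3⟩ := hF.2 u ih1 w hw ha
      exact ih2 x h3 h2 hx
  obtain ⟨v, hv⟩ := hF.1
  exact this v (hS v) hv

lemma forcing : ∀ v, Filled H {0, 1} v := by
  have st : ∀ u w (l : List (Fin 11)), Filled H {0, 1} u → H.Adj u w →
      (∀ x, H.Adj u x → x ≠ w → x ∈ l) → (∀ x ∈ l, Filled H {0, 1} x) → Filled H {0, 1} w :=
    fun u w l h1 h2 h3 h4 => .force u w h1 h2 (fun x a b => h4 x (h3 x a b))
  have h0 : Filled H {0, 1} 0 := .base _ (by decide)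
  have h1 : Filled H {0, 1} 1 := .base _ (by decide)
  have h2 := st 0 2 [] h0 (by decide) (by decide) (by simp)
  have h3 := st 1 3 [2] h1 (by decide) (by decide) (by simp [*])
  have h4 := st 3 4 [1] h3 (by decide) (by decide) (by simp [*])
  have h5 := st 4 5 [3] h4 (by decide) (by decide) (by simp [*])
  have h6 := st 2 6 [0, 1, 5] h2 (by decide) (by decide) (by simp [*])
  have h7 := st 5 7 [2, 4, 6] h5 (by decide) (by decide) (by simp [*])
  have h8 := st 7 8 [5] h7 (by decide) (by decide) (by simp [*])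
  have h9 := st 8 9 [7] h8 (by decide) (by decide) (by simp [*])
  have h10 := st 6 10 [2, 5, 9] h6 (by decide) (by decide) (by simp [*])
  intro v
  fin_cases v <;> assumption

lemma lower (x : Fin 11 → ℝ) (h0 : ∀ v, 0 ≤ x v)
    (h1 : ∀ F, Minimal (Fort H) F → 1 ≤ ∑ v ∈ F, x v) (F : Finset (Fin 11)) (h : fort F) :
    1 ≤ ∑ v ∈ F, x v := by
  obtain ⟨T, hT, hm⟩ := exists_minimal_le_of_wellFoundedLT (Fort H) F ((fort_iff F).2 h)
  exact (h1 T hm).trans (sum_le_sum_of_subset_of_nonneg hT (fun i _ _ => h0 i))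

def fb (a : Fin 11 → Bool) : Bool :=
  (List.finRange 11).any a && (List.finRange 11).all fun v =>
    a v || (nb v).all fun w => !a w || (nb v).any fun x => a x && x != w

def vec (a0 a1 a2 a3 a4 a5 a6 a7 a8 a9 a10 : Bool) (i : Fin 11) : Bool :=
  match i.val with
  | 0 => a0 | 1 => a1 | 2 => a2 | 3 => a3 | 4 => a4 | 5 => a5 | 6 => a6 | 7 => a7 | 8 => a8
  | 9 => a9 | _ => a10

def one (a b c d : Bool) : Bool := xor (xor a b) (xor c d) && !(a && b) && !(c && d)

def fb2 (a0 a1 a2 a3 a4 a5 a6 a7 a8 a9 a10 : Bool) : Bool :=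
  (a0 || !a2) && (a1 || a2 == a3) && (a3 || a1 == a4) && (a4 || a3 == a5) && (a7 || a5 == a8) &&
  (a8 || a7 == a9) && (a9 || a6 == a8) && (a10 || !a6) && (a2 || !one a0 a1 a5 a6) &&
  (a5 || !one a2 a4 a6 a7) && (a6 || !one a2 a5 a9 a10)

lemma key1 : ∀ a0 a1 a2 a3 a4 a5 a6 a7 a8 a9 a10 : Bool,
    (fb2 a0 a1 a2 a3 a4 a5 a6 a7 a8 a9 a10 || !fb (vec a0 a1 a2 a3 a4 a5 a6 a7 a8 a9 a10)) = true := by
  decide +kernel

lemma key : ∀ a2 a3 a4 a5 a6 a7 a8 a9 a10 : Bool,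
    fb2 true false a2 a3 a4 a5 a6 a7 a8 a9 a10 = true → ∀ b2 b3 b4 b5 b6 b7 b8 b9 b10 : Bool,
    fb2 false true b2 b3 b4 b5 b6 b7 b8 b9 b10 = true →
      (a2 && b2 || a3 && b3 || a4 && b4 || a5 && b5 || a6 && b6 || a7 && b7 || a8 && b8 ||
        a9 && b9 || a10 && b10) = true := by decide +kernel

lemma fb2_of (a : Fin 11 → Bool) (h : fb a = true) :
    fb2 (a 0) (a 1) (a 2) (a 3) (a 4) (a 5) (a 6) (a 7) (a 8) (a 9) (a 10) = true := by
  have e : vec (a 0) (a 1) (a 2) (a 3) (a 4) (a 5) (a 6) (a 7) (a 8) (a 9) (a 10) = a := by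
    funext i; fin_cases i <;> rfl
  have := key1 (a 0) (a 1) (a 2) (a 3) (a 4) (a 5) (a 6) (a 7) (a 8) (a 9) (a 10)
  rw [e, h] at this
  simpa using this

lemma fb_of (F : Finset (Fin 11)) (h : fort F) (a : Fin 11 → Bool) (ha : ∀ i, a i = true ↔ i ∈ F) :
    fb a = true := by
  simp only [fb, Bool.and_eq_true, List.any_eq_true, List.all_eq_true, Bool.or_eq_true,
    Bool.not_eq_true', bne_iff_ne, ha]
  obtain ⟨v, hv⟩ := h.1
  refine ⟨⟨v, List.mem_finRange v, hv⟩, fun u _ => ?_⟩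
  by_cases hu : u ∈ F
  · exact Or.inl hu
  · refine Or.inr (fun w hw => ?_)
    by_cases h1 : w ∈ F
    · obtain ⟨x, hx, h2, h3⟩ := h.2 u hu w h1 hw
      exact Or.inr ⟨x, h3, hx, h2⟩
    · left
      by_contra h4
      exact h1 ((ha w).1 (by simpa using h4))

lemma nodisj (F G : Finset (Fin 11)) (hF : fort F) (hG : fort G) (hd : Disjoint F G)
    (h0 : 0 ∈ F) (h1 : 1 ∈ G) : False := by
  have a := fb2_of _ (fb_of F hF (fun i => decide (i ∈ F)) (by simp))
  have b := fb2_of _ (fb_of G hG (fun i => decide (i ∈ G)) (by simp))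
  simp only [h0, h1, disjoint_left.1 hd h0, disjoint_right.1 hd h1, decide_true,
    decide_false] at a b
  have := key _ _ _ _ _ _ _ _ _ a _ _ _ _ _ _ _ _ _ b
  have d := disjoint_left.1 hd
  simp only [Bool.or_eq_true, Bool.and_eq_true, decide_eq_true_eq] at this
  rcases this with ((((((((h | h) | h) | h) | h) | h) | h) | h) | h) <;> exact d h.1 h.2

theorem result : ∃ (n : ℕ) (G : SimpleGraph (Fin n)), 0 < n ∧ Zstar G = Z G ∧ ft G < Z G := by
  have m1 : fort {1, 3, 5, 7, 9} := by decide +kernel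
  have m2 : fort {1, 4, 5, 8, 9} := by decide +kernel
  have m3 : fort {0, 2, 3, 4, 10} := by decide +kernel
  have m4 : fort {0, 6, 7, 8, 10} := by decide +kernel
  have hZ : Z H = 2 := by
    refine le_antisymm (Nat.sInf_le ⟨{0, 1}, by decide, forcing⟩)
      (le_csInf ⟨2, {0, 1}, by decide, forcing⟩ ?_)
    rintro k ⟨S, rfl, hS⟩
    obtain ⟨u, hu, hu'⟩ := meets S _ hS m2
    obtain ⟨v, hv, hv'⟩ := meets S _ hS m3
    obtain ⟨w, hw, hw'⟩ := meets S _ hS m4
    by_contra hc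
    have h1 := card_le_one.1 (show S.card ≤ 1 by omega)
    have e1 := h1 u hu' v hv'
    have e2 := h1 u hu' w hw'
    subst e1; subst e2
    revert u
    simp
  have hs : Zstar H = 2 := by
    have mem : (2 : ℝ) ∈ {t | ∃ x : Fin 11 → ℝ, (∀ v, 0 ≤ x v) ∧
        (∀ F, Minimal (Fort H) F → 1 ≤ ∑ v ∈ F, x v) ∧ ∑ v, x v = t} := by
      refine ⟨fun v => if v ∈ ({0, 1} : Finset (Fin 11)) then 1 else 0, fun v => by positivity,
        fun F hF => ?_, by rw [sum_ite_mem, univ_inter]; simp⟩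
      obtain ⟨v, hv, hv'⟩ := meets _ F forcing ((fort_iff _).1 hF.1)
      refine le_trans ?_ (single_le_sum (fun i _ => by positivity) hv)
      simp only [hv', if_true, le_refl]
    have low : ∀ t ∈ {t | ∃ x : Fin 11 → ℝ, (∀ v, 0 ≤ x v) ∧
        (∀ F, Minimal (Fort H) F → 1 ≤ ∑ v ∈ F, x v) ∧ ∑ v, x v = t}, (2 : ℝ) ≤ t := by
      rintro t ⟨x, h0, h1, rfl⟩
      have a1 := lower x h0 h1 _ m1
      have a2 := lower x h0 h1 _ m2
      have a3 := lower x h0 h1 _ m3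
      have a4 := lower x h0 h1 _ m4
      rw [sum_insert (by decide), sum_insert (by decide), sum_insert (by decide),
        sum_insert (by decide), sum_singleton] at a1 a2 a3 a4
      have e : ∑ v, x v = x 0 + (x 1 + (x 2 + (x 3 + (x 4 + (x 5 + (x 6 + (x 7 + (x 8 + (x 9 +
          x 10))))))))) := by
        simp only [Fin.sum_univ_succ, Fin.sum_univ_zero, add_zero]; rfl
      rw [e]
      linarith [h0 2, h0 6]
    exact le_antisymm (csInf_le ⟨2, low⟩ mem) (le_csInf ⟨2, mem⟩ low)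
  refine ⟨11, H, by norm_num, by rw [hZ, hs]; norm_num, ?_⟩
  have : ft H ≤ 1 := by
    refine csSup_le' ?_
    rintro k ⟨f, hf, hd⟩
    by_contra hk
    have hk2 : 1 < k := by omega
    have d := hd ⟨0, by omega⟩ ⟨1, hk2⟩ (by simp)
    have f0 := (fort_iff _).1 (hf ⟨0, by omega⟩)
    have f1 := (fort_iff _).1 (hf ⟨1, hk2⟩)
    obtain ⟨u, hu, hu'⟩ := meets _ _ forcing f0
    obtain ⟨v, hv, hv'⟩ := meets _ _ forcing f1
    simp only [mem_insert, mem_singleton] at hu' hv'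
    rcases hu' with rfl | rfl <;> rcases hv' with rfl | rfl
    · exact disjoint_left.1 d hu hv
    · exact nodisj _ _ f0 f1 d hu hv
    · exact nodisj _ _ f1 f0 d.symm hv hu
    · exact disjoint_left.1 d hu hv
  omega

end Pool.Agent.Results.MP_7d76f2_co.Counter
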